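import Pool.Agent.H95.ESP.Stmts

/-! Board esp (helper95, MP_3ddf05_nt), row SVE: the arithmetic large sieve with `k`-subsets of a set
of primes. -/

set_option autoImplicit false

namespace ESP
open Finset

theorem sve_squarefree : ∀ (T : Finset ℕ), (∀ p ∈ T, p.Prime) → Squarefree (∏ p ∈ T, p) := by
  classical
  intro T
  induction T using Finset.induction_on with
  | empty => intro _; simp
  | insert p T hp ih =>
    intro hT
    have hpp : p.Prime := hT p (Finset.mem_insert_self p T)
    have hT' : ∀ q ∈ T, q.Prime := fun q hq => hT q (Finset.mem_insert_of_mem hq)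
    rw [Finset.prod_insert hp, Nat.squarefree_mul_iff]
    refine ⟨?_, hpp.squarefree, ih hT'⟩
    rw [Nat.Prime.coprime_iff_not_dvd hpp, hpp.prime.dvd_finset_prod_iff]
    rintro ⟨q, hq, hpq⟩
    rw [(Nat.prime_dvd_prime_iff_eq hpp (hT' q hq)).1 hpq] at hp
    exact hp hq

theorem sve_thm (h : TIE.S_ALS) : S_SVE := by
  classical
  obtain ⟨C, hC, h⟩ := h
  refine ⟨C, hC, ?_⟩
  intro N Q k z hN hQ hz P hP S hS hΩ
  obtain ⟨w, hw⟩ : ∃ w : ℕ → ℕ, ∀ p, w p = if p ∈ P then (p + 5) / 6 else 0 := ⟨_, fun _ => rfl⟩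
  have hwlt : ∀ p : ℕ, p.Prime → w p < p := by
    intro p hp
    have h2 := hp.two_le
    rw [hw]
    split_ifs <;> omega
  have hmain := h N Q hN hQ S hS w (by
    intro p hp _
    refine ⟨hwlt p hp, ?_⟩
    by_cases hpP : p ∈ P
    · obtain ⟨Ω, hΩ1, hΩ2, hΩ3⟩ := hΩ p hpP
      have hsub : S.image (fun n => n % p) ⊆ range p \ Ω := by
        intro m hm
        obtain ⟨n, hn, rfl⟩ := Finset.mem_image.1 hm
        rw [Finset.mem_sdiff, Finset.mem_range]
        exact ⟨Nat.mod_lt _ hp.pos, hΩ3 n hn⟩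
      have h1 := Finset.card_le_card hsub
      have h2 : (range p \ Ω).card + Ω.card = p := by
        rw [Finset.card_sdiff_add_card_eq_card hΩ1, Finset.card_range]
      have h3 : w p = (p + 5) / 6 := by rw [hw, if_pos hpP]
      omega
    · have hsub : S.image (fun n => n % p) ⊆ range p := by
        intro m hm
        obtain ⟨n, hn, rfl⟩ := Finset.mem_image.1 hm
        rw [Finset.mem_range]
        exact Nat.mod_lt _ hp.pos
      have h1 := Finset.card_le_card hsub
      rw [Finset.card_range] at h1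
      rw [hw, if_neg hpP]
      exact h1)
  refine le_trans ?_ hmain
  apply mul_le_mul_of_nonneg_left _ (Nat.cast_nonneg _)
  -- the products of the `k`-subsets
  have hTp : ∀ T ∈ P.powersetCard k, ∀ p ∈ T, p.Prime := fun T hT p hp =>
    (hP p ((Finset.mem_powersetCard.1 hT).1 hp)).1
  have hpf : ∀ T ∈ P.powersetCard k, (∏ p ∈ T, p).primeFactors = T := fun T hT =>
    Nat.primeFactors_prod (hTp T hT)
  have hinj : Set.InjOn (fun T : Finset ℕ => ∏ p ∈ T, p) (P.powersetCard k : Finset (Finset ℕ)) := by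
    intro T hT T' hT' he
    have e1 := hpf T (Finset.mem_coe.1 hT)
    have e2 := hpf T' (Finset.mem_coe.1 hT')
    have he' : ∏ p ∈ T, p = ∏ p ∈ T', p := he
    rw [← e1, ← e2, he']
  have hsub : (P.powersetCard k).image (fun T => ∏ p ∈ T, p) ⊆ (Icc 1 Q).filter Squarefree := by
    intro r hr
    obtain ⟨T, hT, rfl⟩ := Finset.mem_image.1 hr
    rw [Finset.mem_filter, Finset.mem_Icc]
    refine ⟨⟨Finset.prod_pos fun p hp => (hTp T hT p hp).pos, ?_⟩, sve_squarefree T (hTp T hT)⟩
    refine le_trans ?_ hz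
    rw [← (Finset.mem_powersetCard.1 hT).2]
    exact Finset.prod_le_pow_card T _ z fun p hp => (hP p ((Finset.mem_powersetCard.1 hT).1 hp)).2
  have hfac : ∀ p : ℕ, p.Prime → 0 ≤ (w p : ℝ) / ((p : ℝ) - w p) := by
    intro p hp
    have h1 : (w p : ℝ) < p := by exact_mod_cast hwlt p hp
    apply div_nonneg (Nat.cast_nonneg _)
    linarith
  have hfac5 : ∀ p ∈ P, 1 / 5 ≤ (w p : ℝ) / ((p : ℝ) - w p) := by
    intro p hp
    have hpp := (hP p hp).1
    have h1 : (w p : ℝ) < p := by exact_mod_cast hwlt p hpp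
    have h2 : p ≤ 6 * w p := by
      rw [hw, if_pos hp]
      omega
    have h3 : (p : ℝ) ≤ 6 * w p := by exact_mod_cast h2
    rw [div_le_div_iff₀ (by norm_num) (by linarith)]
    linarith
  calc ((P.card.choose k : ℕ) : ℝ) / 5 ^ k = ∑ T ∈ P.powersetCard k, (1 / 5 : ℝ) ^ k := by
        rw [Finset.sum_const, Finset.card_powersetCard, nsmul_eq_mul, one_div, inv_pow, div_eq_mul_inv]
    _ ≤ ∑ T ∈ P.powersetCard k,
        ∏ p ∈ (∏ p ∈ T, p).primeFactors, ((w p : ℝ) / ((p : ℝ) - w p)) := by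
        apply Finset.sum_le_sum
        intro T hT
        rw [hpf T hT, ← (Finset.mem_powersetCard.1 hT).2, ← Finset.prod_const]
        apply Finset.prod_le_prod
        · intro p _
          norm_num
        · intro p hp
          exact hfac5 p ((Finset.mem_powersetCard.1 hT).1 hp)
    _ = ∑ r ∈ (P.powersetCard k).image (fun T => ∏ p ∈ T, p),
        ∏ p ∈ r.primeFactors, ((w p : ℝ) / ((p : ℝ) - w p)) := by
        rw [Finset.sum_image fun T hT T' hT' he => hinj hT hT' he]
    _ ≤ ∑ r ∈ (Icc 1 Q).filter Squarefree,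
        ∏ p ∈ r.primeFactors, ((w p : ℝ) / ((p : ℝ) - w p)) := by
        apply Finset.sum_le_sum_of_subset_of_nonneg hsub
        intro r _ _
        exact Finset.prod_nonneg fun p hp => hfac p (Nat.prime_of_mem_primeFactors hp)

end ESP
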